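import Pool.Agent.H3.D2G.RecG
import Pool.Agent.H3.W.Bas
import Pool.Agent.H31.W1.H1.GEN.One
import Pool.Agent.H31.W1.H2.GEN.ChT

/-!
# The record with the whole chain, the rate of the last coordinate and a set of windows

`RecG`: as `RecQ`, with all the coordinates of the order (`RecT`: each one is a target at the same
windows), their kinds `Kg`, the rate of the last one, all windows in a set `G` and near `g`.
`WnG.recG`: it exists near almost every window of `G`. `CelG`, `VoidG`: class theorems with the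
conclusions: no drop at the place `i`; contradiction. `RecG.recQ`: the record of one target.
-/

set_option autoImplicit false

namespace Pool.W.PKG

open Pool.PKG

open MeasureTheory Set Filter Topology
open Pool.Agent.H49.Ent Pool.Agent.H32.Dense Pool.STK Pool.KA Pool.KSAT Pool.K2S Pool.PB
open Pool.GEN Pool.S6C Pool.STAT Pool.CHT Pool.GRW Pool.ONE Pool.STA
open Pool.LBT (LSys ThrOf)
open Pool.LEV (Law)
open Pool.ALL (RateOf)
open Pool.TOP (TopS)
open Pool.STR (ThinAt SteepAt StaAt sta_of_pairs)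
open Pool.ISO (PtD lvN WinD)


section

variable {m : ℕ} {S : Pool.PB.PCl m} {al : ℝ} {g₀ : ℝ → ℝ} {P : List (Fin m) × Fin m → ℝ → ℝ → ℝ}
  {θ : ℝ} {P₂ : ℕ → List (Fin m) × Fin m → ℝ → ℝ → ℝ} {θ₂ Eb e₂ : ℕ → ℝ}
  {c : ℕ → Fin m} {Pt : ℝ → ℝ → ℝ} {r : ℝ → ℝ} {h K₀ g : ℝ} {L T : ℕ → ℝ → ℝ → ℝ}
  {Sl : ℕ → ℝ} {κ : ℕ → Pool.PKG.Kg} {G : Set ℝ} {S₀ N : ℕ} {A V : ℕ → ℝ} {S₂ N' : ℕ} {V' : ℕ → ℝ}
  {K ε q t : ℝ}
  (R : Pool.W.PKG.RecG S al g₀ P θ P₂ θ₂ Eb e₂ c Pt r h K₀ g L T Sl κ G S₀ N A V S₂ N' V' K ε q t)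
include R

theorem RecG.tmc : Pool.GEN.TmC S 6 := by
  obtain ⟨s, d, e, K₀, N, h⟩ := R.clx
  exact Pool.GEN.N83.clx_tmc h

theorem RecG.tmh : Pool.CHT.TmH S := Pool.CHT.tmH_of_tmC (by norm_num) R.tmc

theorem RecG.pos (τ : ℝ) (J : ℕ) (F : Pool.KA.Fam m J) (A : F.Ω → Prop) (h : S.St τ J F A) :
    0 < Pool.K2S.Pe F.p A := by
  obtain ⟨s, d, e, K₀, N, hC⟩ := R.clx
  exact hC.pos τ J F A h


/-- The levels of the list. -/
theorem RecG.lv_lt {l : ℕ} (hl : l + 1 < m) : L l = Pool.CHT.bet P c l := by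
  rw [R.lv l (by omega)]
  funext a w
  exact if_pos (by omega)

/-- The level of the last coordinate. -/
theorem RecG.lv_last (hm : 0 < m) : L (m - 1) = Pt := by
  rw [R.lv (m - 1) (by omega)]
  funext a w
  exact if_neg (lt_irrefl _)

/-- The levels for the target at the place `i`. -/
theorem RecG.lv_at {i l : ℕ} (hi : i < m) (hl : l ≤ i) : L l = Pool.ISO.lvN P c i (L i) l := by
  funext a w
  unfold Pool.ISO.lvN
  split_ifs with h1
  · rw [R.lv_lt (by omega)]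
  · have : l = i := by omega
    rw [this]


/-- **The data of a window** of the target at the place `i`, from the record. -/
theorem RecG.winD {i : ℕ} (hi1 : 1 ≤ i) (hi : i < m) {k : ℕ} (hk : k < N)
    (hVK : -K ≤ V k) (hAV : V k < A k) (hAK : A k ≤ K) {ε' : ℝ} (hε' : 3 * ε * q ≤ ε')
    (hε : 0 ≤ ε) {Rg : ℕ → Prop} (hR : ∀ l < i, Rg l → κ l = .one ∨ κ l = .thin) :
    Pool.W.ISO.WinD S P θ c i (L i) (t + A k * q) (t + V k * q) S₂ (Eb i) ε' Rg := by
  have W := R.tg i hi1 hi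
  have hq := R.q0
  have hVA : V k * q < A k * q := mul_lt_mul_of_pos_right hAV hq
  have hV1 : -(K * q) ≤ V k * q := by
    have := mul_le_mul_of_nonneg_right hVK hq.le
    linarith
  have hA1 : A k * q ≤ K * q := mul_le_mul_of_nonneg_right hAK hq.le
  have hεq : 0 ≤ ε * q := mul_nonneg hε hq.le
  have hbx : |t + V k * q - t| ≤ K * q := by
    rw [abs_le]
    constructor <;> linarith
  have hbx' : |t + A k * q - t| ≤ K * q := by
    rw [abs_le]
    constructor <;> linarith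
  have h3 : 3 * (ε * q) ≤ ε' := by linarith
  refine Pool.W.PKG.winD_of (by linarith) (W.pt k hk).1 (W.pt k hk).2 (by linarith) (fun l hl hRl => ?_)
    (fun l hl => ?_) ((R.dep i hi1 hi k hk).mono le_rfl le_rfl (by linarith))
  · rw [← R.lv_lt (l := l) (by omega)]
    have h4 := R.kd l (by omega)
    have h5 := abs_le.1 (R.dL l (by omega) _ hbx)
    have h6 := abs_le.1 (R.dL l (by omega) _ hbx')
    rcases hR l hl hRl with h | h
    · rw [h] at h4
      have h7 : Sl l = 1 := h4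
      rw [h7] at h5 h6
      have h8 := (R.lawL l (by omega)).mono_w (t + A k * q) (t + V k * q) (t + A k * q)
        (by linarith [R.t0]) (by linarith) le_rfl (by linarith [R.t1])
      linarith
    · rw [h] at h4
      have h8 := h4.2 (t + A k * q) (t + V k * q) (by linarith) (by linarith) (by linarith)
      have h9 := abs_le.1 (R.dT l (by omega) _ hbx)
      linarith
  · rw [← R.lv_at hi hl]
    have := W.room l hl _ hbx
    linarith

end

/-- The numbers of the second threshold structure at the pairs. -/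
theorem RecT.ratN {m : ℕ} {S : Pool.PB.PCl m} {P P₂ : List (Fin m) × Fin m → ℝ → ℝ → ℝ} {θ θ₂ : ℝ}
    {c : ℕ → Fin m} {l : ℕ} {L : ℕ → ℝ → ℝ → ℝ} {S₀ N : ℕ} {A V : ℕ → ℝ} {S₂ N' : ℕ}
    {V' : ℕ → ℝ} {Eb e₂ K q t : ℝ}
    (W : Pool.W.PKG.RecT S P P₂ θ θ₂ c l L S₀ N A V S₂ N' V' Eb e₂ K q t) {k : ℕ} (hk : k < N) (e : ℝ)
    (he : 0 < e) (hm : l + 1 = m := by omega) : ∃ d : ℝ, 0 < d ∧ ∀ a' w' : ℝ, t + A k * q ≤ a' → a' ≤ t + A k * q + d →
      t + V k * q ≤ w' → w' ≤ t + V k * q + d → w' ≤ a' →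
      Pool.CHT.bet P₂ c l a' w' ≤ L l (t + A k * q) (t + V k * q) + e := by
  exact W.rat hm k hk e he


variable {n : ℕ} {hn : 2 ≤ n} {S : Pool.PB.PCl n} {P : ℝ → ℝ → ℝ} {r : ℝ → ℝ}
  {P' : ℕ → List (Fin n) × Fin n → ℝ → ℝ → ℝ} {Λ : Finset (Fin n) → Fin n → ℝ → ℝ → ℝ}
  {PB : ℕ → List (Fin n) × Fin n → ℝ → ℝ → ℝ} {PQ : ℚ → List (Fin n) × Fin n → ℝ → ℝ → ℝ}


end Pool.W.PKG
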