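import Pool.Agent.H3.D2G.RecN
import Pool.Agent.H31.W.H23.D2.Bln
import Pool.Agent.H31.W.H3.D2G.RecG
import Pool.Agent.H3.W.Bas
import Pool.Agent.H31.W1.H1.GEN.One
import Pool.Agent.H31.W1.H2.GEN.ChT

/-!
# The record of the end of the target `N - P(p, u)`

`RecG.recNr`: the numbers of `RecNr` at one scale from the record `RecG`: the target is the steep
coordinate at the place `r + 1`, over `r` coordinates of slope one and the coordinate `u = c r`; the
windows with rows are in the list of the pairs, with the radius `t + (Sl (r + 1) + 1) q`, the ball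
windows in the chain. `RecG.balD_at`: the data of a ball window of the chain for a target at any
place.
-/

set_option autoImplicit false

namespace Pool.W.PKG

open Pool.PKG

open Finset Real
open Pool.Agent.H49.Ent Pool.Agent.H32.Dense Pool.STK Pool.KA Pool.KSAT Pool.K2S Pool.PB
open Pool.GEN Pool.S6C Pool.STAT Pool.CHT Pool.GRW Pool.ONE Pool.STA
open Pool.LBT (LSys ThrOf)
open Pool.LEV (Law)
open Pool.ALL (RateOf)
open Pool.ISO (PtD lvN WinD)
open Pool.V1E (RecNr vF vF_ge)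
open Pool.D2R (BalD)

variable {m : ℕ} {S : Pool.PB.PCl m} {al : ℝ} {g₀ : ℝ → ℝ} {P : List (Fin m) × Fin m → ℝ → ℝ → ℝ}
  {θ : ℝ} {P₂ : ℕ → List (Fin m) × Fin m → ℝ → ℝ → ℝ} {θ₂ Eb e₂ : ℕ → ℝ}
  {c : ℕ → Fin m} {Pt : ℝ → ℝ → ℝ} {rt : ℝ → ℝ} {h K₀ g : ℝ} {L T : ℕ → ℝ → ℝ → ℝ}
  {Sl : ℕ → ℝ} {κ : ℕ → Pool.PKG.Kg} {G : Set ℝ} {S₀ N : ℕ} {A V : ℕ → ℝ} {S₂ N' : ℕ} {V' : ℕ → ℝ}
  {K ε q t : ℝ}
  (R : Pool.W.PKG.RecG S al g₀ P θ P₂ θ₂ Eb e₂ c Pt rt h K₀ g L T Sl κ G S₀ N A V S₂ N' V' K ε q t)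
include R

/-- **The data of a ball window** of the chain, for the target at the place `i`. -/
theorem RecG.balD_at {i : ℕ} (hi1 : 1 ≤ i) (hi : i < m) (hS : S₀ ≤ S₂) {k : ℕ} (hk : k < N')
    {x : ℝ} (hx : V' k < x) (hxK : x - V' k ≤ 3 * K) (hVK : |V' k| ≤ K) :
    Pool.W.D2R.BalD S P θ c i (L i) (t + x * q) (t + V' k * q) S₂ (Eb i) := by
  have W := R.tg i hi1 hi
  have hq := R.q0
  have h1 : V' k * q < x * q := mul_lt_mul_of_pos_right hx hq
  have h2 := (W.ptc k hk).mono hS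
  obtain ⟨ρ, vs, e, e₀, E, sg, Q, k1, k2, -⟩ := h2
  refine ⟨by linarith, ⟨ρ, vs, e, e₀, E, sg, Q, k1, k2⟩, fun l hl => ?_⟩
  have h3 := W.room l hl (t + V' k * q) (by
    rw [add_sub_cancel_left, abs_mul, abs_of_pos hq]
    exact mul_le_mul_of_nonneg_right hVK hq.le)
  rw [← R.lv_at hi hl]
  have h5 : (x - V' k) * q ≤ 3 * K * q := mul_le_mul_of_nonneg_right hxK hq.le
  linarith

/-- **The lower bound** of a level of the record. -/
theorem RecG.low_at {i : ℕ} (hi : i < m) {a w : ℝ} (hw : 0 ≤ w) (hwa : w ≤ a) (ha : a ≤ 1) :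
    a ≤ L i a w := by
  rcases Nat.lt_or_ge (i + 1) m with h1 | h1
  · rw [R.lv_lt h1]
    exact R.thr.low _ _ _ hw hwa ha
  · have : i = m - 1 := by omega
    rw [this, R.lv_last (by omega)]
    exact R.tgs.low () _ _ hw hwa ha


end Pool.W.PKG
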